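import Pool.Agent.N204.HJ.Stm

/-!
# Functoriality of the semisimple part (helper306)
-/

set_option autoImplicit false
set_option linter.unusedSectionVars false

open Polynomial Module

namespace Pool.Agent.N306.HJ

open Pool.Agent.N204.HJ

variable {K V W : Type} [Field K] [CharZero K] [AddCommGroup V] [Module K V] [Module.Finite K V]
  [AddCommGroup W] [Module K W] [Module.Finite K W]

/-- the endomorphism of the product -/
noncomputable def pm (a : End K V) (b : End K W) : End K (V × W) :=
  LinearMap.prodMapAlgHom K V W (a, b)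

theorem pm_apply (a : End K V) (b : End K W) (x : V × W) : pm a b x = (a x.1, b x.2) := rfl

theorem pm_aeval (a : End K V) (b : End K W) (r : K[X]) :
    aeval (pm a b) r = pm (aeval a r) (aeval b r) := by
  unfold pm
  rw [Polynomial.aeval_algHom_apply, Polynomial.aeval_prod_apply]

theorem dvd_of_sq {p r : K[X]} (hp : Squarefree p) {n : ℕ} (h : p ∣ r ^ n) : p ∣ r := by
  rcases Nat.eq_zero_or_pos n with h0 | h0
  · rw [h0, pow_zero] at h
    exact h.trans (one_dvd r)
  · exact (hp.dvd_pow_iff_dvd h0.ne').1 h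

theorem pm_ss {a : End K V} {b : End K W} (ha : a.IsSemisimple) (hb : b.IsSemisimple) :
    (pm a b).IsSemisimple := by
  have h0 : minpoly K a * minpoly K b ≠ 0 :=
    mul_ne_zero (minpoly.ne_zero_of_finite K a) (minpoly.ne_zero_of_finite K b)
  obtain ⟨r, n, h1, -, h3⟩ := exists_squarefree_dvd_pow_of_ne_zero h0
  refine Module.End.isSemisimple_of_squarefree_aeval_eq_zero h1 ?_
  have h4 : minpoly K a ∣ r := dvd_of_sq ha.minpoly_squarefree ((dvd_mul_right _ _).trans h3)
  have h5 : minpoly K b ∣ r := dvd_of_sq hb.minpoly_squarefree ((dvd_mul_left _ _).trans h3)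
  rw [pm_aeval, minpoly.dvd_iff.1 h4, minpoly.dvd_iff.1 h5]
  exact map_zero (LinearMap.prodMapAlgHom K V W)

theorem pm_nil {a : End K V} {b : End K W} (ha : IsNilpotent a) (hb : IsNilpotent b) :
    IsNilpotent (pm a b) := by
  obtain ⟨m, hm⟩ := ha
  obtain ⟨n, hn⟩ := hb
  refine IsNilpotent.map (f := LinearMap.prodMapAlgHom K V W) ⟨m + n, ?_⟩
  rw [Prod.pow_mk, pow_add, hm, zero_mul, pow_add, hn, mul_zero]
  rfl

theorem j1 : S_J1 := by
  intro K V W _ _ _ _ _ _ _ _ f s f' s' g h h' hg x
  obtain ⟨h1, h2, h3⟩ := h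
  obtain ⟨h1', h2', h3'⟩ := h'
  have hS : (pm s s').IsSemisimple := pm_ss h1 h1'
  have hN : IsNilpotent (pm (f - s) (f' - s')) := pm_nil h2 h2'
  have hC : Commute (pm (f - s) (f' - s')) (pm s s') := by
    have e : Commute ((f - s, f' - s') : End K V × End K W) (s, s') :=
      Prod.ext ((h3.sub_left (Commute.refl s))) (h3'.sub_left (Commute.refl s'))
    exact e.map (LinearMap.prodMapAlgHom K V W)
  have hF : pm (f - s) (f' - s') + pm s s' = pm f f' := by
    unfold pm
    rw [← map_add, Prod.mk_add_mk, sub_add_cancel, sub_add_cancel]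
  obtain ⟨n₀, hn, s₀, hs, h4, h5, h6⟩ := (pm f f').exists_isNilpotent_isSemisimple
  have hC0 : Commute n₀ s₀ := by
    have e1 : Commute n₀ (pm f f') :=
      (Algebra.commute_of_mem_adjoin_singleton_of_commute hn (Commute.refl _)).symm
    exact (Algebra.commute_of_mem_adjoin_singleton_of_commute hs e1)
  have hu := Module.End.isNilpotent_isSemisimple_unique hN hS h4 h5 hC hC0 (hF.trans h6)
  let T : End K (V × W) := (LinearMap.inr K V W) ∘ₗ g ∘ₗ (LinearMap.fst K V W)
  have hT : Commute T (pm f f') := by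
    refine LinearMap.ext fun y => ?_
    show ((0 : V), g (f y.1)) = (f 0, f' (g y.1))
    rw [map_zero, hg]
  have hT2 : Commute T s₀ := Algebra.commute_of_mem_adjoin_singleton_of_commute hs hT
  rw [← hu.2] at hT2
  have h7 := LinearMap.congr_fun hT2.eq ((x, 0) : V × W)
  have h8 : ((0 : V), g (s x)) = (s 0, s' (g x)) := h7
  exact congrArg Prod.snd h8

end Pool.Agent.N306.HJ
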